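import Mathlib
import Pool.Agent.Lib_helper15.KLReal

set_option autoImplicit false

/-!
Weighted zero-sum subsequences in arbitrary finite groups: Question Q1 of MP_94c9ac_al,
answered positively.

Proof idea. Cells are the cyclic subgroups of `G`; a pebble on the cell `C` is a nonempty list of
indices without repetition whose product lies in `C` and whose weight is at most `1/|C|`. If
`D ≤ C` has index `t` in `C`, then `t` pebbles on `C` can be traded for one pebble on `D`
(pigeonhole on partial products). The abstract pebbling theorem (`Lib_helper15.KLPebble`,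
`Lib_helper15.KLCyclic`) shows that `∑_C φ(|C|) = |G|` pebbles always suffice to reach the trivial
subgroup.
-/

namespace Pool.Agent.Results.MP_94c9ac_al.KleitmanLemkeAllGroups

/-- For every finite group `G` (not necessarily abelian) of order `n` and every sequence
`g_1, …, g_n` of elements of `G` there is a nonempty set `K` of indices which can be enumerated
(by a list `l` without repetitions) so that the product of the corresponding elements in that order
is the identity, and such that `∑_{k ∈ K} 1/|g_k| ≤ 1`. -/
theorem result (G : Type*) [Group G] [Fintype G] (g : Fin (Fintype.card G) → G) :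
    ∃ K : Finset (Fin (Fintype.card G)), K.Nonempty ∧
      (∃ l : List (Fin (Fintype.card G)), l.Nodup ∧ l.toFinset = K ∧ (l.map g).prod = 1) ∧
      ∑ k ∈ K, (1 : ℚ) / (orderOf (g k) : ℚ) ≤ 1 := by
  classical
  obtain ⟨l, hne, hnd, hprod, hw⟩ :=
    Pool.Agent.Lib_helper15.KL.weighted_zero_sum (G := G) (ι := Fin (Fintype.card G))
      (by rw [Nat.card_eq_fintype_card, Fintype.card_fin]) g
  refine ⟨l.toFinset, ?_, ⟨l, hnd, rfl, hprod⟩, ?_⟩
  · obtain ⟨a, ha⟩ := List.exists_mem_of_ne_nil l hne
    exact ⟨a, List.mem_toFinset.mpr ha⟩
  · rw [List.sum_toFinset _ hnd]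
    exact hw

end Pool.Agent.Results.MP_94c9ac_al.KleitmanLemkeAllGroups
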